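import Pool.Agent.Helper70.ML.St

set_option autoImplicit false

namespace Pool.Agent.Helper79.ML

open Pool.Agent.Helper70.ML Pool.Agent.Helper75.MX

private theorem sum_L {G : Type} [Group G] [Fintype G] (g : G) (f : G → ℝ) : ∑ x, L g f x = ∑ x, f x := by
  unfold L
  exact Equiv.sum_comp (Equiv.mulLeft g⁻¹) f

private theorem sum_app {G : Type} [Group G] [Fintype G] (l : List (G × ℝ)) (f : G → ℝ) :
    ∑ x, app l f x = ∑ x, f x := by
  induction l with
  | nil => rfl
  | cons a l ih =>
    rw [app_cons]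
    have h1 : ∀ x, lz a.1 a.2 (app l f) x = (1 - a.2) * app l f x + a.2 * L a.1 (app l f) x := fun x => rfl
    simp only [h1]
    rw [Finset.sum_add_distrib, ← Finset.mul_sum, ← Finset.mul_sum, sum_L, ih]
    ring

theorem hMO (hORB : StORB) : StMO := by
  intro G X _ _ _ x₀ k m c hk hl
  classical
  have : Fintype G := Fintype.ofFinite G
  obtain ⟨l, hlm, hlo, hlc⟩ := hl
  set H : Subgroup G := MulAction.stabilizer G x₀ with hH
  obtain ⟨l0, h1, h2, h3⟩ := hk
  set l0' : List (G × ℝ) := l0.map (fun a => ((a.1 : G), a.2)) with hl0'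
  set f : G → ℝ := ext0 H (uni H) with hf
  have e0 : dlt G = ext0 H (dlt H) := by
    funext x
    simp only [ext0, dlt]
    by_cases hx : x ∈ H
    · rw [dif_pos hx]
      by_cases h1 : x = 1
      · subst h1
        rw [if_pos rfl, if_pos]
        rfl
      · rw [if_neg h1, if_neg]
        intro h
        exact h1 (congrArg Subtype.val h)
    · rw [dif_neg hx, if_neg]
      intro h
      rw [h] at hx
      exact hx H.one_mem
  have e1 : app l0' (dlt G) = f := by
    rw [e0, hl0', ← ext0_app, h3]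
  have hHf : H ≤ stab f := by
    intro h hh
    rw [mem_stab]
    funext x
    simp only [L, hf, ext0, uni]
    by_cases hx : x ∈ H
    · rw [dif_pos hx, dif_pos (H.mul_mem (H.inv_mem hh) hx)]
    · rw [dif_neg hx, dif_neg]
      intro h4
      refine hx ?_
      have h5 := H.mul_mem hh h4
      rwa [mul_inv_cancel_left] at h5
  obtain ⟨Φ, a1, a2, a3, a4, a5⟩ := hORB G X ⊤ H le_top x₀ (fun k _ hk => MulAction.mem_stabilizer_iff.2 hk) f hHf
  have hδ : Φ (fun x : X => if x = x₀ then (1 : ℝ) else 0) = f := by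
    refine a4 _ fun k _ => ⟨fun hk => ?_, fun hk => ?_⟩
    · rw [if_pos (MulAction.mem_stabilizer_iff.1 hk)]
    · rw [if_neg (fun h => hk (MulAction.mem_stabilizer_iff.2 h))]
  have hlz : ∀ (g : G) (p : ℝ) (μ : X → ℝ), lz g p (Φ μ) = Φ (lzX g p μ) := by
    intro g p μ
    have : lzX g p μ = (1 - p) • μ + p • (fun x => μ (g⁻¹ • x)) := by
      funext x
      rfl
    rw [this, a1, a2, a2, ← a3 g (Subgroup.mem_top g)]
    rfl
  have happ : ∀ (l : List (G × ℝ)) (μ : X → ℝ), app l (Φ μ) = Φ (apX l μ) := by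
    intro l μ
    induction l with
    | nil => rfl
    | cons a l ih =>
      rw [app_cons, ih, hlz]
      rfl
  have e2 : app l f = Φ (fun _ => c) := by
    rw [← hδ, happ, ← hlc]
  have hst : ⊤ ≤ stab (Φ (fun _ => c)) := a5 _ c fun _ _ => rfl
  have hconst : ∀ x, app l f x = app l f 1 := by
    intro x
    rw [e2]
    have h4 := mem_stab.1 (hst (Subgroup.mem_top x))
    have h5 := congrFun h4 x
    simp only [L, inv_mul_cancel] at h5
    exact h5.symm
  have hsum : ∑ x, app l f x = 1 := by
    rw [sum_app, ← e1, sum_app]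
    unfold dlt
    rw [Finset.sum_ite_eq' Finset.univ (1 : G) (fun _ => (1 : ℝ)), if_pos (Finset.mem_univ _)]
  have huni : app l f = uni G := by
    funext x
    rw [Finset.sum_congr rfl (fun x _ => hconst x), Finset.sum_const, Finset.card_univ, ← Nat.card_eq_fintype_card,
      nsmul_eq_mul] at hsum
    rw [hconst x]
    unfold uni
    have h0 : (Nat.card G : ℝ) ≠ 0 := by exact_mod_cast Nat.card_pos.ne'
    field_simp
    linarith
  refine Reach.trans (h := f) ⟨l0', ?_, ?_, e1⟩ ⟨l, hlm, hlo, huni⟩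
  · rw [hl0', List.length_map]
    exact h1
  · intro a ha
    rw [hl0', List.mem_map] at ha
    obtain ⟨b, hb, rfl⟩ := ha
    exact h2 b hb

end Pool.Agent.Helper79.ML
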