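import Pool.Agent.Helper70.ML.St2

set_option autoImplicit false

namespace Pool.Agent.Helper79.ML

open Pool.Agent.Helper70.ML Pool.Agent.Helper75.MX
open Matrix

section
variable {n : ℕ} {F : Type} [Field F]

/-- truncation -/
private def tr (j : ℕ) (c : Fin n → F) : Fin n → F := fun b => if (b : ℕ) < j then c b else 0

private theorem tr_add (j : ℕ) (c c' : Fin n → F) : tr j (c + c') = tr j c + tr j c' := by
  funext b
  simp only [tr, Pi.add_apply]
  split_ifs <;> simp

private theorem tr_dot (J : Fin n) (c : Fin n → F) : tr J c ⬝ᵥ (Pi.single J 1 : Fin n → F) = 0 := by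
  rw [dotProduct_single_one]
  simp [tr]

private theorem det_um (J : Fin n) (c : Fin n → F) :
    (1 + vecMulVec (Pi.single J 1) (tr J c) : Matrix (Fin n) (Fin n) F).det = 1 := by
  rw [vecMulVec_eq Unit, det_one_add_replicateCol_mul_replicateRow, tr_dot, add_zero]

/-- the unipotent element with row `J` given by `c` -/
private def um (J : Fin n) (c : Fin n → F) : SLn n F :=
  ⟨1 + vecMulVec (Pi.single J 1) (tr J c), det_um J c⟩

private theorem um_val (J : Fin n) (c : Fin n → F) :
    (um J c).1 = 1 + vecMulVec (Pi.single J 1) (tr J c) := rfl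

private theorem um_add (J : Fin n) (c c' : Fin n → F) : um J (c + c') = um J c * um J c' := by
  refine Subtype.ext ?_
  show (um J (c + c')).1 = (um J c).1 * (um J c').1
  rw [um_val, um_val, um_val, tr_add, vecMulVec_add, mul_add, mul_one, add_mul, one_mul, vecMulVec_mul_vecMulVec,
    tr_dot, zero_smul, vecMulVec_zero, add_zero, add_assoc]

private theorem um_zero (J : Fin n) : um J (0 : Fin n → F) = 1 := by
  refine Subtype.ext ?_
  show (um J (0 : Fin n → F)).1 = 1
  have h : tr (J : ℕ) (0 : Fin n → F) = 0 := by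
    funext b
    simp [tr]
  rw [um_val, h, vecMulVec_zero, add_zero]

private theorem tv_um (J i : Fin n) (hi : i < J) (a : F) : tv J i a = um J (Pi.single i a) := by
  unfold tv
  rw [dif_pos hi.ne']
  refine Subtype.ext ?_
  show transvection J i a = (um J (Pi.single i a)).1
  rw [um_val]
  unfold transvection
  congr 1
  ext x y
  rw [vecMulVec_apply, Matrix.single_apply]
  unfold tr
  by_cases hx : J = x
  · subst hx
    by_cases hy : i = y
    · subst hy
      rw [if_pos ⟨rfl, rfl⟩, if_pos (show (i : ℕ) < (J : ℕ) from hi)]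
      simp
    · rw [if_neg (fun h => hy h.2), Pi.single_eq_of_ne (fun h => hy h.symm)]
      simp
  · rw [if_neg (fun h => hx h.1), Pi.single_eq_of_ne (fun h => hx h.symm)]
    simp

/-- the unipotent group -/
private def VV (J : Fin n) : Subgroup (SLn n F) where
  carrier := {g | ∃ c : Fin n → F, g = um J c}
  one_mem' := ⟨0, (um_zero J).symm⟩
  mul_mem' := by
    rintro _ _ ⟨c, rfl⟩ ⟨c', rfl⟩
    exact ⟨c + c', (um_add J c c').symm⟩
  inv_mem' := by
    rintro _ ⟨c, rfl⟩
    refine ⟨-c, ?_⟩
    rw [inv_eq_iff_mul_eq_one, ← um_add, add_neg_cancel, um_zero]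

private theorem mem_VV (J : Fin n) (g : SLn n F) : g ∈ VV J ↔ ∃ c : Fin n → F, g = um J c := Iff.rfl

private theorem dia (g : SLn n F) (b : Fin n) (h : ∀ a : Fin n, a ≠ b → g.1 a b = 0) : g.1 b b ≠ 0 := by
  intro h0
  have h1 : g.1.det = 0 := det_eq_zero_of_column_eq_zero b fun a => by
    by_cases hab : a = b
    · rw [hab]; exact h0
    · exact h a hab
  rw [g.2] at h1
  exact one_ne_zero h1

/-- row vectors: if `w g` is supported on the first coordinates then so is `w` -/
private theorem supp (j : ℕ) (g : SLn n F) (h : ∀ a b : Fin n, a ≠ b → j ≤ (b : ℕ) → g.1 a b = 0)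
    (w c : Fin n → F) (hw : w ᵥ* g.1 = c) (hc : ∀ b : Fin n, j ≤ (b : ℕ) → c b = 0) (b : Fin n) (hb : j ≤ (b : ℕ)) :
    w b = 0 := by
  have h1 : (w ᵥ* g.1) b = w b * g.1 b b := by
    unfold vecMul dotProduct
    rw [Finset.sum_eq_single b]
    · intro a _ hab
      show w a * g.1 a b = 0
      rw [h a b hab hb, mul_zero]
    · intro hh
      exact absurd (Finset.mem_univ _) hh
  rw [hw, hc b hb] at h1
  rcases mul_eq_zero.1 h1.symm with h2 | h2
  · exact h2
  · exact absurd h2 (dia g b fun a hab => h a b hab hb)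

private theorem inv_mul' (g : SLn n F) : (g⁻¹).1 * g.1 = 1 := by
  have h : g⁻¹ * g = 1 := inv_mul_cancel g
  have := congrArg Subtype.val h
  exact this

private theorem mul_inv' (g : SLn n F) : g.1 * (g⁻¹).1 = 1 := by
  have h : g * g⁻¹ = 1 := mul_inv_cancel g
  have := congrArg Subtype.val h
  exact this

private theorem conj_mem (J : Fin n) (g : SLn n F) (hg : InH (J : ℕ) g) {v : SLn n F} (hv : v ∈ VV J) :
    g * v * g⁻¹ ∈ VV J := by
  obtain ⟨c, rfl⟩ := hv
  set w : Fin n → F := tr J c ᵥ* (g⁻¹).1 with hw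
  have hwg : w ᵥ* g.1 = tr J c := by
    rw [hw, vecMul_vecMul, inv_mul', vecMul_one]
  have hw0 : ∀ b : Fin n, (J : ℕ) ≤ (b : ℕ) → w b = 0 :=
    supp J g (fun a b hab hb => hg a b hab (Or.inr hb)) w (tr J c) hwg (fun b hb => by
      unfold tr
      rw [if_neg (by omega)])
  refine ⟨g.1 J J • w, ?_⟩
  refine Subtype.ext ?_
  show g.1 * (um J c).1 * (g⁻¹).1 = (um J (g.1 J J • w)).1
  have hcol : g.1 *ᵥ (Pi.single J 1 : Fin n → F) = g.1 J J • (Pi.single J 1 : Fin n → F) := by
    rw [mulVec_single_one]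
    funext a
    by_cases ha : a = J
    · subst ha
      simp [Matrix.col]
    · rw [Pi.smul_apply, Pi.single_eq_of_ne ha, smul_zero]
      exact hg a J ha (Or.inr le_rfl)
  have htr : tr J (g.1 J J • w) = g.1 J J • w := by
    funext b
    unfold tr
    split_ifs with hb
    · rfl
    · rw [Pi.smul_apply, hw0 b (by omega), smul_zero]
  rw [um_val, um_val, htr, mul_add, add_mul, mul_one, mul_inv', mul_vecMulVec, vecMulVec_mul, ← hw, hcol, smul_vecMulVec,
    vecMulVec_smul]

/-- decomposition of elements of `InP` -/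
private theorem decomp (J : Fin n) (g : SLn n F) (hg : InP (J : ℕ) g) :
    ∃ v ∈ VV J, ∃ h : SLn n F, InH (J : ℕ) h ∧ g = v * h := by
  set r : Fin n → F := tr J (g.1 J) with hr
  set w : Fin n → F := r ᵥ* (g⁻¹).1 with hw
  have hwg : w ᵥ* g.1 = r := by
    rw [hw, vecMul_vecMul, inv_mul', vecMul_one]
  have hcolg : ∀ a b : Fin n, a ≠ b → (J : ℕ) ≤ (b : ℕ) → g.1 a b = 0 := by
    intro a b hab hb
    rcases Nat.lt_or_ge (J : ℕ) (b : ℕ) with h1 | h1
    · exact hg.1 a b hab (Or.inr h1)
    · exact hg.2 a b hab (by omega)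
  have hw0 : ∀ b : Fin n, (J : ℕ) ≤ (b : ℕ) → w b = 0 :=
    supp J g hcolg w r hwg (fun b hb => by
      rw [hr]
      unfold tr
      rw [if_neg (by omega)])
  have htr : tr J w = w := by
    funext b
    unfold tr
    split_ifs with hb
    · rfl
    · rw [hw0 b (by omega)]
  have hinv : (um J w)⁻¹ = um J (-w) := by
    rw [inv_eq_iff_mul_eq_one, ← um_add, add_neg_cancel, um_zero]
  refine ⟨um J w, ⟨w, rfl⟩, (um J w)⁻¹ * g, ?_, by rw [mul_inv_cancel_left]⟩
  have htr' : tr J (-w) = -w := by
    funext b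
    unfold tr
    split_ifs with hb
    · rfl
    · rw [Pi.neg_apply, hw0 b (by omega), neg_zero]
  have hval : ((um J w)⁻¹ * g).1 = g.1 + vecMulVec (Pi.single J 1) (-r) := by
    rw [hinv]
    show (um J (-w)).1 * g.1 = _
    rw [um_val, htr', add_mul, one_mul, vecMulVec_mul, neg_vecMul, hwg]
  intro a b hab hj
  rw [hval, Matrix.add_apply, vecMulVec_apply]
  by_cases ha : a = J
  · subst ha
    have hba : b ≠ a := hab.symm
    rw [Pi.single_eq_same, one_mul, Pi.neg_apply, hr]
    unfold tr
    split_ifs with hb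
    · rw [add_neg_cancel]
    · rw [neg_zero, add_zero]
      exact hcolg a b hab (by omega)
  · rw [Pi.single_eq_of_ne ha, zero_mul, add_zero]
    rcases hj with h1 | h1
    · refine hg.1 a b hab (Or.inl ?_)
      have : (a : ℕ) ≠ (J : ℕ) := fun h => ha (Fin.ext h)
      omega
    · exact hcolg a b hab h1

end

section
variable {n : ℕ} {F : Type} [Field F]

/-- averaging over `VV` -/
private noncomputable def PV (J : Fin n) (f : SLn n F → ℝ) : SLn n F → ℝ :=
  (1 / (Nat.card (VV (F := F) J) : ℝ)) • ∑ᶠ v : VV (F := F) J, L (v : SLn n F) f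



private theorem PV_add (J : Fin n) [Finite F] (f h : SLn n F → ℝ) : PV J (f + h) = PV J f + PV J h := by
  classical
  have : Fintype (VV (F := F) J) := Fintype.ofFinite _
  unfold PV
  rw [finsum_eq_sum_of_fintype, finsum_eq_sum_of_fintype, finsum_eq_sum_of_fintype, ← smul_add,
    ← Finset.sum_add_distrib]
  rfl

private theorem PV_smul (J : Fin n) [Finite F] (c : ℝ) (f : SLn n F → ℝ) : PV J (c • f) = c • PV J f := by
  classical
  have : Fintype (VV (F := F) J) := Fintype.ofFinite _
  unfold PV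
  rw [finsum_eq_sum_of_fintype, finsum_eq_sum_of_fintype, smul_comm c]
  congr 1
  rw [Finset.smul_sum]
  rfl

private theorem PV_sum (J : Fin n) [Finite F] {ι : Type} (s : Finset ι) (f : ι → SLn n F → ℝ) :
    PV J (∑ i ∈ s, f i) = ∑ i ∈ s, PV J (f i) := by
  classical
  induction s using Finset.induction_on with
  | empty =>
    rw [Finset.sum_empty, Finset.sum_empty]
    have := PV_smul J (0 : ℝ) (0 : SLn n F → ℝ)
    rwa [zero_smul, zero_smul] at this
  | insert a s ha ih => rw [Finset.sum_insert ha, Finset.sum_insert ha, PV_add, ih]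

private theorem PV_L (J : Fin n) [Finite F] {v : SLn n F} (hv : v ∈ VV J) (f : SLn n F → ℝ) :
    PV J (L v f) = PV J f := by
  classical
  have : Fintype (VV (F := F) J) := Fintype.ofFinite _
  unfold PV
  rw [finsum_eq_sum_of_fintype, finsum_eq_sum_of_fintype]
  congr 1
  have h := Equiv.sum_comp (Equiv.mulRight (⟨v, hv⟩ : VV (F := F) J)) (fun x : VV (F := F) J => L (x : SLn n F) f)
  rw [← h]
  refine Finset.sum_congr rfl fun x _ => ?_
  rw [← Pool.Agent.Helper75.MX.L_mul]
  rfl

private theorem PV_fix (J : Fin n) [Finite F] (f : SLn n F → ℝ) (h : ∀ v ∈ VV J, L v f = f) : PV J f = f := by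
  classical
  have : Fintype (VV (F := F) J) := Fintype.ofFinite _
  unfold PV
  rw [finsum_eq_sum_of_fintype, Finset.sum_congr rfl (fun x _ => h x.1 x.2), Finset.sum_const, Finset.card_univ,
    ← Nat.card_eq_fintype_card, ← Nat.cast_smul_eq_nsmul ℝ, smul_smul]
  have h0 : (Nat.card (VV (F := F) J) : ℝ) ≠ 0 := by exact_mod_cast Nat.card_pos.ne'
  rw [one_div_mul_cancel h0, one_smul]

private theorem PV_conj (J : Fin n) [Finite F] (g : SLn n F) (hg : InH (J : ℕ) g) (f : SLn n F → ℝ)
    (hf : L g f = f) : L g (PV J f) = PV J f := by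
  classical
  have : Fintype (VV (F := F) J) := Fintype.ofFinite _
  unfold PV
  rw [finsum_eq_sum_of_fintype, L_smul, L_sum]
  congr 1
  let φ : VV (F := F) J → VV (F := F) J := fun v => ⟨g * v * g⁻¹, conj_mem J g hg v.2⟩
  have hinj : Function.Injective φ := by
    intro v v' h
    have h1 := congrArg Subtype.val h
    have h2 : g * (v : SLn n F) * g⁻¹ = g * (v' : SLn n F) * g⁻¹ := h1
    exact Subtype.ext (mul_left_cancel (mul_right_cancel h2))
  have hbij : Function.Bijective φ := Finite.injective_iff_bijective.1 hinj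
  have h := hbij.sum_comp (fun x : VV (F := F) J => L (x : SLn n F) f)
  rw [← h]
  refine Finset.sum_congr rfl fun x _ => ?_
  show L g (L (x : SLn n F) f) = L (g * (x : SLn n F) * g⁻¹) f
  conv_rhs => rw [← hf]
  rw [← Pool.Agent.Helper75.MX.L_mul, ← Pool.Agent.Helper75.MX.L_mul, inv_mul_cancel_right]

private theorem PV_avR (J i : Fin n) [Finite F] (hi : i < J) (f : SLn n F → ℝ) : PV J (avR J i f) = PV J f := by
  classical
  have : Fintype F := Fintype.ofFinite F
  unfold avR
  rw [PV_smul, finsum_eq_sum_of_fintype, PV_sum]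
  have h : ∀ a : F, PV J (L (tv J i a) f) = PV J f := fun a =>
    PV_L J (by rw [tv_um J i hi a]; exact ⟨_, rfl⟩) f
  rw [Finset.sum_congr rfl (fun a _ => h a), Finset.sum_const, Finset.card_univ, ← Nat.card_eq_fintype_card,
    ← Nat.cast_smul_eq_nsmul ℝ, smul_smul]
  have h0 : (Nat.card F : ℝ) ≠ 0 := by exact_mod_cast Nat.card_pos.ne'
  rw [one_div_mul_cancel h0, one_smul]

private theorem avR_inv (J i k : Fin n) [Finite F] (hi : i < J) (hk : k < J) (f : SLn n F → ℝ)
    (h : k = i ∨ ∀ b : F, L (tv J k b) f = f) (b : F) : L (tv J k b) (avR J i f) = avR J i f := by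
  classical
  have : Fintype F := Fintype.ofFinite F
  unfold avR
  rw [finsum_eq_sum_of_fintype, L_smul, L_sum]
  congr 1
  rcases h with rfl | h
  · have h1 := Equiv.sum_comp (Equiv.addLeft b) (fun a : F => L (tv J k a) f)
    rw [← h1]
    refine Finset.sum_congr rfl fun a _ => ?_
    rw [← Pool.Agent.Helper75.MX.L_mul, tv_um J k hk, tv_um J k hk, ← um_add, ← Pi.single_add]
    show _ = L (tv J k (b + a)) f
    rw [tv_um J k hk]
  · refine Finset.sum_congr rfl fun a _ => ?_
    rw [← Pool.Agent.Helper75.MX.L_mul, tv_um J k hk, tv_um J i hi, ← um_add, add_comm, um_add, ← tv_um J k hk, ← tv_um J i hi, Pool.Agent.Helper75.MX.L_mul, h]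

private theorem VV_of_tv (J : Fin n) (f : SLn n F → ℝ) (h : ∀ i : Fin n, i < J → ∀ a : F, L (tv J i a) f = f) :
    ∀ v ∈ VV J, L v f = f := by
  classical
  rintro _ ⟨c, rfl⟩
  have hs : ∀ s : Finset (Fin n), L (um J (∑ i ∈ s, Pi.single i (tr J c i))) f = f := by
    intro s
    induction s using Finset.induction_on with
    | empty => rw [Finset.sum_empty, um_zero, L_one]
    | insert a s ha ih =>
      rw [Finset.sum_insert ha, um_add, Pool.Agent.Helper75.MX.L_mul, ih]
      by_cases haJ : a < J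
      · rw [← tv_um J a haJ]
        exact h a haJ _
      · have : tr J c a = 0 := by
          unfold tr
          rw [if_neg (show ¬ (a : ℕ) < (J : ℕ) from haJ)]
        rw [this, Pi.single_zero, um_zero, L_one]
  have h1 := hs Finset.univ
  rw [Finset.univ_sum_single] at h1
  have h2 : um J (tr J c) = um J c := by
    refine Subtype.ext ?_
    rw [um_val, um_val]
    congr 2
    funext b
    unfold tr
    split_ifs <;> rfl
  rwa [h2] at h1

end

theorem hCOL : StCOL := by
  intro n F _ _ j hj1 hjn cq hH f hf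
  set J : Fin n := ⟨j, hjn⟩ with hJ
  have hf1 : Inv (InH 1) f := by
    intro g hg
    refine hf g fun a b hab h => hg a b hab ?_
    rcases h with h | h
    · exact Or.inl (hj1.trans h)
    · exact Or.inr (hj1.trans h)
  have hind : ∀ k : ℕ, k ≤ j → ∃ f' : SLn n F → ℝ, Reach (k * cq) f f' ∧ Inv (InH 1) f' ∧
      (∀ i : Fin n, (i : ℕ) < k → ∀ a : F, L (tv J i a) f' = f') ∧ PV J f' = PV J f := by
    intro k
    induction k with
    | zero =>
      intro _
      refine ⟨f, ?_, hf1, fun i hi => absurd hi (by omega), rfl⟩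
      rw [zero_mul]
      exact Reach.refl f
    | succ k ih =>
      intro hk
      obtain ⟨f', h1, h2, h3, h4⟩ := ih (by omega)
      set I : Fin n := ⟨k, by omega⟩ with hI
      have hIJ : I < J := by
        show k < j
        omega
      obtain ⟨h5, h6⟩ := hH J I hIJ.ne' f' h2
      refine ⟨avR J I f', ?_, h6, ?_, ?_⟩
      · have h7 := h1.trans h5
        have e : (k + 1) * cq = k * cq + cq := by ring
        rw [e]
        exact h7
      · intro i hi a
        have hiJ : i < J := by
          show (i : ℕ) < j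
          omega
        refine avR_inv J I i hIJ hiJ f' ?_ a
        rcases Nat.lt_or_ge (i : ℕ) k with h8 | h8
        · exact Or.inr (h3 i h8)
        · exact Or.inl (Fin.ext (by show (i : ℕ) = k; omega))
      · rw [PV_avR J I hIJ, h4]
  obtain ⟨f', h1, -, h3, h4⟩ := hind j le_rfl
  refine ⟨f', h1, ?_⟩
  have hV : ∀ v ∈ VV J, L v f' = f' := VV_of_tv J f' fun i hi a => h3 i hi a
  have h5 : f' = PV J f := by rw [← h4, PV_fix J f' hV]
  have hHf : ∀ g, InH j g → L g f' = f' := by
    intro g hg
    rw [h5]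
    exact PV_conj J g hg f (hf g hg)
  intro g hg
  obtain ⟨v, hv, h, hh, rfl⟩ := decomp J g hg
  rw [Pool.Agent.Helper75.MX.L_mul, hHf h hh, hV v hv]

end Pool.Agent.Helper79.ML
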